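import Pool.Agent.HX6.P73.B

/-!
# MP_73c65d_al, Q2 (negated form)

For `(p, q, r) = (2, 3, 5)` and each commutator word
`u_k = [(xyz)^k, (yzx)⁻¹]` (`k = 0, 1, 2, ...`, with `u_0 = 1`) the group
`⟨x, y, z | x², y³, z⁵, xyz·u_k⟩` maps onto `A_n`, `n ≥ 3`, for `n = 5` only.
The relators `xyz·u_k` are essentially different: in the free product
`C₂ * C₃ * C₅` no two of them are conjugate, even up to inversion.
-/

namespace Pool.Agent.Results.MP_73c65d_al.OnlyDegreeFive

open Subgroup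

/-- The free group `F` on three letters. -/
abbrev F : Type := FreeGroup (Fin 3)

/-- The three free generators. -/
def x : F := FreeGroup.of 0
/-- The second free generator. -/
def y : F := FreeGroup.of 1
/-- The third free generator. -/
def z : F := FreeGroup.of 2

/-- `ev a b c u` is `u(a,b,c)`: the image of `u` under the homomorphism
with `x ↦ a`, `y ↦ b`, `z ↦ c`. -/
def ev {G : Type} [Group G] (a b c : G) : F →* G := FreeGroup.lift ![a, b, c]

/-- `n ≥ 3` is admissible for `p, q, r, u`. -/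
def Admissible (p q r : ℕ) (u : F) (n : ℕ) : Prop :=
  3 ≤ n ∧ ∃ a b c : alternatingGroup (Fin n), closure {a, b, c} = ⊤ ∧
    a ^ p = 1 ∧ b ^ q = 1 ∧ c ^ r = 1 ∧ a * b * c * ev a b c u = 1

/-- The free product `C_p * C_q * C_r`, as the quotient of `F` by the normal closure
of `x^p, y^q, z^r`. -/
abbrev FreeProd (p q r : ℕ) : Type := F ⧸ normalClosure ({x ^ p, y ^ q, z ^ r} : Set F)

/-- The words `u_k = (xyz)^k (yzx)⁻¹ (xyz)^(-k) (yzx)`, the commutator of `(xyz)^k`
and `(yzx)⁻¹`. -/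
def uw (k : ℕ) : F := (x * y * z) ^ k * (y * z * x)⁻¹ * ((x * y * z) ^ k)⁻¹ * (y * z * x)

theorem uw_mem (k : ℕ) : uw k ∈ _root_.commutator F := by
  have h := Subgroup.commutator_mem_commutator (H₁ := (⊤ : Subgroup F)) (H₂ := ⊤)
    (mem_top ((x * y * z) ^ k)) (mem_top ((y * z * x)⁻¹))
  rw [commutatorElement_def, inv_inv] at h
  exact h

section ev
variable {G : Type} [Group G] (a b c : G)

@[simp] theorem ev_x : ev a b c x = a := by simp [ev, x]
@[simp] theorem ev_y : ev a b c y = b := by simp [ev, y]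
@[simp] theorem ev_z : ev a b c z = c := by simp [ev, z]

theorem ev_uw (k : ℕ) : ev a b c (uw k) =
    (a * b * c) ^ k * (b * c * a)⁻¹ * ((a * b * c) ^ k)⁻¹ * (b * c * a) := by
  simp only [uw, map_mul, map_pow, map_inv, ev_x, ev_y, ev_z]

end ev

/-- The relation `abc · u_k(a,b,c) = 1` together with `a² = 1` forces `abc = 1`. -/
theorem collapse {G : Type} [Group G] (a b c : G) (k : ℕ) (ha : a ^ 2 = 1)
    (h : a * b * c * ev a b c (uw k) = 1) : a * b * c = 1 := by
  rw [ev_uw] at h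
  set r := a * b * c with hr
  have hg : b * c * a = a⁻¹ * r * a := by rw [hr]; group
  rw [hg] at h
  set g := a⁻¹ * r * a with hgd
  have ha' : a⁻¹ = a := by
    rw [inv_eq_iff_mul_eq_one, ← pow_two, ha]
  have h1 : g⁻¹ * r ^ k * g = r ^ (k + 1) := by
    have e : r ^ (k + 1) * (g⁻¹ * r ^ k * g)⁻¹ = 1 := by
      rw [← h, pow_succ']; group
    exact (mul_inv_eq_one.1 e).symm
  have hga : a⁻¹ * g * a = r := by
    rw [hgd]
    calc a⁻¹ * (a⁻¹ * r * a) * a = (a * a)⁻¹ * r * (a * a) := by group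
      _ = r := by rw [← pow_two, ha]; simp
  have conjpow : ∀ (s : G) (m : ℕ), a⁻¹ * s ^ m * a = (a⁻¹ * s * a) ^ m := by
    intro s m
    have := conj_pow (i := m) (a := a⁻¹) (b := s)
    simpa using this.symm
  have h2 : r⁻¹ * g ^ k * r = g ^ (k + 1) := by
    have e1 : a⁻¹ * (g⁻¹ * r ^ k * g) * a = (a⁻¹ * g * a)⁻¹ * (a⁻¹ * r ^ k * a) * (a⁻¹ * g * a) := by
      group
    rw [h1, conjpow, conjpow, hga, ← hgd] at e1
    exact e1.symm
  exact Pool.Agent.HX6.P73.collapse r g k h1 h2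

theorem card_alt (n : ℕ) (hn : 3 ≤ n) : 2 * Nat.card (alternatingGroup (Fin n)) = n.factorial := by
  have : Nontrivial (Fin n) := Fin.nontrivial_iff_two_le.2 (by omega)
  have := two_mul_nat_card_alternatingGroup (α := Fin n)
  rw [this]
  simp [Nat.card_eq_fintype_card, Fintype.card_perm]

theorem only_five (n k : ℕ) (h : Admissible 2 3 5 (uw k) n) : n = 5 := by
  obtain ⟨hn, a, b, c, hcl, ha, hb, hc, hrel⟩ := h
  have habc := collapse a b c k ha hrel
  have hle := Pool.Agent.HX6.P73.card_le a b c ha hb hc habc hcl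
  have hcard := card_alt n hn
  by_contra hne
  rcases Nat.lt_or_gt_of_ne hne with hlt | hgt
  · -- `n = 3, 4`
    have hn34 : n = 3 ∨ n = 4 := by omega
    have hc1 : c = 1 := by
      have h1 : orderOf c ∣ 5 := orderOf_dvd_of_pow_eq_one hc
      have h2 : orderOf c ∣ Nat.card (alternatingGroup (Fin n)) := orderOf_dvd_natCard c
      have h3 : orderOf c ∣ 12 := by
        rcases hn34 with rfl | rfl
        · have : Nat.card (alternatingGroup (Fin 3)) = 3 := by
            have : (3 : ℕ).factorial = 6 := rfl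
            omega
          rw [this] at h2
          exact h2.trans (by norm_num)
        · have : Nat.card (alternatingGroup (Fin 4)) = 12 := by
            have : (4 : ℕ).factorial = 24 := rfl
            omega
          rwa [this] at h2
      have h4 : orderOf c ∣ 1 := (Nat.dvd_gcd h1 h3).trans (by norm_num)
      exact orderOf_eq_one_iff.1 (Nat.dvd_one.1 h4)
    have hab : a * b = 1 := by simpa [hc1] using habc
    have hab' : b = a⁻¹ := eq_inv_of_mul_eq_one_right hab
    have ha1 : a = 1 := by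
      have h1 : a ^ 3 = 1 := by
        rw [hab', inv_pow, inv_eq_one] at hb
        exact hb
      have : a ^ 3 = a ^ 2 * a := pow_succ a 2
      rw [h1, ha, one_mul] at this
      exact this.symm
    have hb1 : b = 1 := by rw [hab', ha1, inv_one]
    have htriv : (⊤ : Subgroup (alternatingGroup (Fin n))) = ⊥ := by
      rw [← hcl, ha1, hb1, hc1]
      simp
    have h1 : Nat.card (alternatingGroup (Fin n)) = 1 := by
      have := congrArg (fun K : Subgroup (alternatingGroup (Fin n)) => Nat.card K) htriv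
      simpa using this
    rw [h1] at hcard
    rcases hn34 with rfl | rfl <;> simp [Nat.factorial] at hcard
  · have h6 : (6 : ℕ).factorial ≤ n.factorial := Nat.factorial_le (by omega)
    have : (6 : ℕ).factorial = 720 := rfl
    omega

/-! ### Degree five -/

theorem five (k : ℕ) : Admissible 2 3 5 (uw k) 5 := by
  refine ⟨by norm_num, ?_⟩
  -- a = (0 1)(2 3), b with ab of order five
  let a0 : Equiv.Perm (Fin 5) := Equiv.swap 0 1 * Equiv.swap 2 3
  let b0 : Equiv.Perm (Fin 5) := Equiv.swap 1 2 * Equiv.swap 2 4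
  have ha0 : a0 ∈ alternatingGroup (Fin 5) := by
    rw [Equiv.Perm.mem_alternatingGroup]; decide
  have hb0 : b0 ∈ alternatingGroup (Fin 5) := by
    rw [Equiv.Perm.mem_alternatingGroup]; decide
  let a : alternatingGroup (Fin 5) := ⟨a0, ha0⟩
  let b : alternatingGroup (Fin 5) := ⟨b0, hb0⟩
  have ha : a ^ 2 = 1 := by
    apply Subtype.ext
    show a0 ^ 2 = 1
    decide
  have hb : b ^ 3 = 1 := by
    apply Subtype.ext
    show b0 ^ 3 = 1
    decide
  have hab : (a * b) ^ 5 = 1 := by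
    apply Subtype.ext
    show (a0 * b0) ^ 5 = 1
    decide
  have ha1 : a ≠ 1 := by
    intro h
    have : a0 = 1 := congrArg Subtype.val h
    revert this
    decide
  have hb1 : b ≠ 1 := by
    intro h
    have : b0 = 1 := congrArg Subtype.val h
    revert this
    decide
  have hab1 : a * b ≠ 1 := by
    intro h
    have : a0 * b0 = 1 := congrArg Subtype.val h
    revert this
    decide
  refine ⟨a, b, (a * b)⁻¹, ?_, ha, hb, by rw [inv_pow, hab, inv_one], ?_⟩
  · set K : Subgroup (alternatingGroup (Fin 5)) := closure {a, b, (a * b)⁻¹} with hK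
    have haK : a ∈ K := subset_closure (by simp)
    have hbK : b ∈ K := subset_closure (by simp)
    have hcardG : Nat.card (alternatingGroup (Fin 5)) = 60 := by
      have := card_alt 5 (by norm_num)
      have h5 : (5 : ℕ).factorial = 120 := rfl
      omega
    have hdvd : Nat.card K ∣ 60 := hcardG ▸ K.card_subgroup_dvd_card
    have o2 : orderOf a = 2 := orderOf_eq_prime ha ha1
    have o3 : orderOf b = 3 := orderOf_eq_prime hb hb1
    have : Fact (Nat.Prime 5) := ⟨by norm_num⟩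
    have o5 : orderOf (a * b) = 5 := orderOf_eq_prime hab hab1
    have d2 : 2 ∣ Nat.card K := o2 ▸ (Subgroup.orderOf_dvd_natCard K haK)
    have d3 : 3 ∣ Nat.card K := o3 ▸ (Subgroup.orderOf_dvd_natCard K hbK)
    have d5 : 5 ∣ Nat.card K := by
      have h := Subgroup.orderOf_dvd_natCard K (mul_mem haK hbK)
      rwa [o5] at h
    have d30 : 30 ∣ Nat.card K := by omega
    have hc : Nat.card K = 30 ∨ Nat.card K = 60 := by
      obtain ⟨m, hm⟩ := d30
      have hle : Nat.card K ≤ 60 := Nat.le_of_dvd (by norm_num) hdvd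
      have hpos : 0 < Nat.card K := Nat.card_pos
      have hm' : m = 1 ∨ m = 2 := by
        rw [hm] at hle hpos
        omega
      rcases hm' with rfl | rfl <;> omega
    rcases hc with hc | hc
    · have hidx : K.index = 2 := by
        have := K.card_mul_index
        rw [hc, hcardG] at this
        omega
      have hn : K.Normal := Subgroup.normal_of_index_eq_two hidx
      rcases hn.eq_bot_or_eq_top with h | h
      · exfalso
        rw [h] at hc
        simp at hc
      · exact h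
    · exact Subgroup.eq_top_of_card_eq K (by rw [hc, hcardG])
  · rw [ev_uw]
    have e : a * b * (a * b)⁻¹ = 1 := mul_inv_cancel _
    rw [e]
    simp

/-! ### The relators are pairwise non-conjugate in the free product -/

/-- Image of `x`: the symmetric square of `(0, -1; 1, 0)`. -/
def X3 : Matrix (Fin 3) (Fin 3) ℤ := !![0, 0, 1; 0, -1, 0; 1, 0, 0]
/-- Image of `y`: the symmetric square of `(0, 1; -1, -1)`. -/
def Y3 : Matrix (Fin 3) (Fin 3) ℤ := !![0, 0, 1; 0, -1, -2; 1, 1, 1]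

theorem X3_sq : X3 * X3 = 1 := by decide
theorem Y3_cube : Y3 * (Y3 * Y3) = 1 := by decide
theorem Y3_cube' : (Y3 * Y3) * Y3 = 1 := by decide

/-- `X3` as a unit. -/
def Xu : (Matrix (Fin 3) (Fin 3) ℤ)ˣ := ⟨X3, X3, X3_sq, X3_sq⟩
/-- `Y3` as a unit. -/
def Yu : (Matrix (Fin 3) (Fin 3) ℤ)ˣ := ⟨Y3, Y3 * Y3, Y3_cube, Y3_cube'⟩

theorem Xu_sq : Xu ^ 2 = 1 := by
  apply Units.ext
  show (X3 : Matrix (Fin 3) (Fin 3) ℤ) ^ 2 = 1
  rw [pow_two, X3_sq]

theorem Yu_cube : Yu ^ 3 = 1 := by
  apply Units.ext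
  show (Y3 : Matrix (Fin 3) (Fin 3) ℤ) ^ 3 = 1
  rw [pow_succ, pow_two, Y3_cube']

/-- The homomorphism from the free group. -/
def rho0 : F →* (Matrix (Fin 3) (Fin 3) ℤ)ˣ := ev Xu Yu 1

/-- The homomorphism from the free product. -/
def rho : FreeProd 2 3 5 →* (Matrix (Fin 3) (Fin 3) ℤ)ˣ :=
  QuotientGroup.lift _ rho0 (by
    intro g hg
    have : normalClosure ({x ^ 2, y ^ 3, z ^ 5} : Set F) ≤ rho0.ker := by
      rw [← Subgroup.normalClosure_subset_iff]
      rintro w (rfl | rfl | rfl)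
      · simp [MonoidHom.mem_ker, rho0, Xu_sq]
      · simp [MonoidHom.mem_ker, rho0, Yu_cube]
      · simp [MonoidHom.mem_ker, rho0]
    exact this hg)

/-- The class of `xyz·u_k` in the free product. -/
def cls (k : ℕ) : FreeProd 2 3 5 := ((x * y * z * uw k : F) : FreeProd 2 3 5)

/-- the image of `xyz`. -/
def U3 (t : ℤ) : Matrix (Fin 3) (Fin 3) ℤ := !![1, t, t ^ 2; 0, 1, 2 * t; 0, 0, 1]
/-- the image of `yzx`. -/
def V3 (t : ℤ) : Matrix (Fin 3) (Fin 3) ℤ := !![1, 0, 0; -2 * t, 1, 0; t ^ 2, -t, 1]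

theorem U3_add (s t : ℤ) : U3 s * U3 t = U3 (s + t) := by
  ext i j
  fin_cases i <;> fin_cases j <;>
    simp [U3, Matrix.mul_apply, Fin.sum_univ_three] <;> ring

theorem V3_add (s t : ℤ) : V3 s * V3 t = V3 (s + t) := by
  ext i j
  fin_cases i <;> fin_cases j <;>
    simp [V3, Matrix.mul_apply, Fin.sum_univ_three] <;> ring

theorem U3_zero : U3 0 = 1 := by decide
theorem V3_zero : V3 0 = 1 := by decide

/-- `U3 t` as a unit. -/
def Uu (t : ℤ) : (Matrix (Fin 3) (Fin 3) ℤ)ˣ :=
  ⟨U3 t, U3 (-t), by rw [U3_add, add_neg_cancel, U3_zero], by rw [U3_add, neg_add_cancel, U3_zero]⟩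
/-- `V3 t` as a unit. -/
def Vu (t : ℤ) : (Matrix (Fin 3) (Fin 3) ℤ)ˣ :=
  ⟨V3 t, V3 (-t), by rw [V3_add, add_neg_cancel, V3_zero], by rw [V3_add, neg_add_cancel, V3_zero]⟩

theorem XY : Xu * Yu * 1 = Uu 1 := by
  apply Units.ext
  show X3 * Y3 * 1 = U3 1
  decide

theorem YX : Yu * 1 * Xu = Vu 1 := by
  apply Units.ext
  show Y3 * 1 * X3 = V3 1
  decide

theorem Uu_pow (k : ℕ) : Uu 1 ^ k = Uu k := by
  induction k with
  | zero => apply Units.ext; show (1 : Matrix (Fin 3) (Fin 3) ℤ) = U3 _; simp [U3_zero]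
  | succ k ih =>
    rw [pow_succ, ih]
    apply Units.ext
    show U3 k * U3 1 = U3 _
    rw [U3_add]
    push_cast
    rfl

theorem rho_cls (k : ℕ) : rho (cls k) = Uu 1 * (Uu k * (Vu 1)⁻¹ * (Uu k)⁻¹ * Vu 1) := by
  have : rho (cls k) = rho0 (x * y * z * uw k) := rfl
  rw [this, map_mul]
  simp only [rho0]
  rw [ev_uw, map_mul, map_mul, ev_x, ev_y, ev_z, XY, YX, Uu_pow]

theorem trace_cls (k : ℕ) : ((rho (cls k) : (Matrix (Fin 3) (Fin 3) ℤ)ˣ) :
    Matrix (Fin 3) (Fin 3) ℤ).trace = (2 + (k : ℤ) * (k + 1)) ^ 2 - 1 := by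
  rw [rho_cls]
  show (U3 1 * (U3 k * V3 (-1) * U3 (-k) * V3 1)).trace = _
  simp [U3, V3, Fin.sum_univ_three, Matrix.trace]
  ring

theorem trace_cls_inv (k : ℕ) : ((rho (cls k)⁻¹ : (Matrix (Fin 3) (Fin 3) ℤ)ˣ) :
    Matrix (Fin 3) (Fin 3) ℤ).trace = (2 + (k : ℤ) * (k + 1)) ^ 2 - 1 := by
  rw [map_inv, rho_cls]
  have : (Uu 1 * (Uu k * (Vu 1)⁻¹ * (Uu k)⁻¹ * Vu 1))⁻¹
      = (Vu 1)⁻¹ * Uu k * Vu 1 * (Uu k)⁻¹ * (Uu 1)⁻¹ := by group
  rw [this]
  show (V3 (-1) * U3 k * V3 1 * U3 (-k) * U3 (-1)).trace = _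
  simp [U3, V3, Fin.sum_univ_three, Matrix.trace]
  ring

theorem trace_conj {g h : (Matrix (Fin 3) (Fin 3) ℤ)ˣ} (hc : IsConj g h) :
    (g : Matrix (Fin 3) (Fin 3) ℤ).trace = (h : Matrix (Fin 3) (Fin 3) ℤ).trace := by
  obtain ⟨c, hc⟩ := isConj_iff.1 hc
  rw [← hc]
  simp only [Units.val_mul]
  rw [Matrix.trace_mul_comm, ← mul_assoc]
  simp

theorem inj_aux (k l : ℕ) (h : (2 + (k : ℤ) * (k + 1)) ^ 2 - 1 = (2 + (l : ℤ) * (l + 1)) ^ 2 - 1) :
    k = l := by
  have hk : (0 : ℤ) ≤ k := Int.natCast_nonneg k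
  have hl : (0 : ℤ) ≤ l := Int.natCast_nonneg l
  have h1 : (2 + (k : ℤ) * (k + 1)) = (2 + (l : ℤ) * (l + 1)) := by
    have h2 : (2 + (k : ℤ) * (k + 1)) ^ 2 = (2 + (l : ℤ) * (l + 1)) ^ 2 := by linarith
    exact (pow_left_inj₀ (by positivity) (by positivity) (by norm_num)).1 h2
  have h3 : ((k : ℤ) - l) * (k + l + 1) = 0 := by linear_combination h1
  rcases mul_eq_zero.1 h3 with h4 | h4
  · omega
  · omega

theorem not_conj (k l : ℕ) (hkl : k ≠ l) :
    ¬ IsConj (cls k) (cls l) ∧ ¬ IsConj (cls k) (cls l)⁻¹ := by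
  constructor
  · intro h
    have := trace_conj (rho.map_isConj h)
    rw [trace_cls, trace_cls] at this
    exact hkl (inj_aux k l this)
  · intro h
    have := trace_conj (rho.map_isConj h)
    rw [trace_cls, trace_cls_inv] at this
    exact hkl (inj_aux k l this)

/-- **Q2 is false, robustly.**  There is a sequence `u_0 = 1, u_1, u_2, ...` of commutator
words such that for `(p,q,r) = (2,3,5)` and each `u_k` the only admissible `n` is `5`, and
the relators `xyz·u_k` are pairwise non-conjugate, even up to inversion, in the free product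
`C₂ * C₃ * C₅`. -/
theorem result :
    ∃ u : ℕ → F, u 0 = 1 ∧ (∀ k, u k ∈ _root_.commutator F) ∧
      (∀ k n, Admissible 2 3 5 (u k) n ↔ n = 5) ∧
      (∀ k l, k ≠ l →
        ¬ IsConj ((x * y * z * u k : F) : FreeProd 2 3 5) ((x * y * z * u l : F) : FreeProd 2 3 5) ∧
        ¬ IsConj ((x * y * z * u k : F) : FreeProd 2 3 5)
          ((x * y * z * u l : F) : FreeProd 2 3 5)⁻¹) := by
  refine ⟨uw, by rw [uw, pow_zero]; group, uw_mem, fun k n => ⟨only_five n k, ?_⟩, fun k l h => not_conj k l h⟩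
  rintro rfl
  exact five k

end Pool.Agent.Results.MP_73c65d_al.OnlyDegreeFive
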